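import Mathlib

/-!
# Alsedà–Misiurewicz systems with `y₀ ≥ 1/2` are minimal
-/

set_option autoImplicit false

namespace Pool.Agent.Results.MP_f06e6c_an.AllMinimal

/-- The map `f₀`: the graph consists of the segments from `(0,0)` to `(x₀,y₀)` and from `(x₀,y₀)` to
`(1,1)`. -/
noncomputable def f0 (x0 y0 x : ℝ) : ℝ :=
  if x ≤ x0 then y0 / x0 * x else (1 - y0) / (1 - x0) * (x - 1) + 1

/-- The map `f₁(x) = 1 - f₀(1 - x)`. -/
noncomputable def f1 (x0 y0 x : ℝ) : ℝ := 1 - f0 x0 y0 (1 - x)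

/-- The orbit of `x`: all the points `f_{i_n} ∘ ⋯ ∘ f_{i_1} (x)`, `n ≥ 0`. -/
def orb (x0 y0 x : ℝ) : Set ℝ :=
  {y | ∃ w : List (Fin 2), w.foldr (fun i z => if i = 0 then f0 x0 y0 z else f1 x0 y0 z) x = y}

section

variable {x0 y0 : ℝ}

lemma f0_cont (h1 : 0 < x0) (h2 : x0 < 1) : Continuous (f0 x0 y0) := by
  unfold f0
  refine Continuous.if_le (by fun_prop) (by fun_prop) continuous_id continuous_const ?_
  intro x hx
  have hx' : x = x0 := hx
  subst hx'
  have : (1 - x) ≠ 0 := by linarith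
  field_simp
  ring

lemma f1_cont (h1 : 0 < x0) (h2 : x0 < 1) : Continuous (f1 x0 y0) := by
  unfold f1
  exact continuous_const.sub ((f0_cont h1 h2).comp (by fun_prop))

lemma f0_mem (h1 : 0 < y0) (h2 : y0 < x0) (h3 : x0 < 1) {x : ℝ} (hx : x ∈ Set.Ioo (0:ℝ) 1) :
    f0 x0 y0 x ∈ Set.Ioo (0:ℝ) x := by
  have hx0 : 0 < x0 := h1.trans h2
  have hx1 : 0 < 1 - x0 := by linarith
  obtain ⟨hxa, hxb⟩ := hx
  unfold f0
  split_ifs with h
  · refine ⟨by positivity, ?_⟩
    have : y0 / x0 < 1 := (div_lt_one hx0).2 h2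
    nlinarith
  · push Not at h
    have ha : 1 < (1 - y0) / (1 - x0) := (one_lt_div hx1).2 (by linarith)
    constructor
    · have e : (1 - y0) / (1 - x0) * (x - 1) + 1 = y0 + (1 - y0) / (1 - x0) * (x - x0) := by
        field_simp; ring
      rw [e]
      have : 0 < (1 - y0) / (1 - x0) * (x - x0) := by
        apply mul_pos (by linarith) (by linarith)
      linarith
    · nlinarith

lemma f1_mem (h1 : 0 < y0) (h2 : y0 < x0) (h3 : x0 < 1) {x : ℝ} (hx : x ∈ Set.Ioo (0:ℝ) 1) :
    f1 x0 y0 x ∈ Set.Ioo x 1 := by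
  have := f0_mem h1 h2 h3 (x := 1 - x) ⟨by linarith [hx.2], by linarith [hx.1]⟩
  unfold f1
  exact ⟨by linarith [this.2], by linarith [this.1]⟩

/-- The core: an open subset `V` of `(0,1)` whose complement in `(0,1)` is nonempty and forward
invariant is empty. -/
lemma core (hx1 : x0 < 1) (hy : 1 / 2 ≤ y0) (hxy : y0 < x0) (C : Set ℝ) (hC : IsClosed C)
    (hne : (C ∩ Set.Ioo 0 1).Nonempty)
    (h0 : ∀ z ∈ C ∩ Set.Ioo 0 1, f0 x0 y0 z ∈ C) (h1 : ∀ z ∈ C ∩ Set.Ioo 0 1, f1 x0 y0 z ∈ C) :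
    Set.Ioo (0:ℝ) 1 ⊆ C := by
  have hy0 : 0 < y0 := by linarith
  have hx0 : 0 < x0 := by linarith
  have h1x : 0 < 1 - x0 := by linarith
  have h1y : 0 < 1 - y0 := by linarith
  -- `C` comes close to `0`
  have hzero : ∀ ε : ℝ, 0 < ε → ∃ a ∈ C ∩ Set.Ioo 0 1, a < ε := by
    intro ε hε
    by_contra hcon
    push Not at hcon
    set S := C ∩ Set.Ioo (0:ℝ) 1 with hS
    have hbdd : BddBelow S := ⟨ε, fun a ha => hcon a ha⟩
    have hinf : ε ≤ sInf S := le_csInf hne hcon
    have hcl : sInf S ∈ closure S := csInf_mem_closure hne hbdd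
    have hC' : sInf S ∈ C := (closure_minimal Set.inter_subset_left hC) hcl
    obtain ⟨z, hz⟩ := hne
    have hlt : sInf S < 1 := (csInf_le hbdd hz).trans_lt hz.2.2
    have hmem : sInf S ∈ S := ⟨hC', by linarith, hlt⟩
    have hf := f0_mem hy0 hxy hx1 hmem.2
    have hf' : f0 x0 y0 (sInf S) ∈ S := ⟨h0 _ hmem, hf.1, hf.2.trans hlt⟩
    exact absurd (csInf_le hbdd hf') (not_le.2 hf.2)
  have hone : ∀ ε : ℝ, ε < 1 → ∃ a ∈ C ∩ Set.Ioo 0 1, ε < a := by
    intro ε hε
    by_contra hcon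
    push Not at hcon
    set S := C ∩ Set.Ioo (0:ℝ) 1 with hS
    have hbdd : BddAbove S := ⟨ε, fun a ha => hcon a ha⟩
    have hsup : sSup S ≤ ε := csSup_le hne hcon
    have hcl : sSup S ∈ closure S := csSup_mem_closure hne hbdd
    have hC' : sSup S ∈ C := (closure_minimal Set.inter_subset_left hC) hcl
    obtain ⟨z, hz⟩ := hne
    have hlt : 0 < sSup S := hz.2.1.trans_le (le_csSup hbdd hz)
    have hmem : sSup S ∈ S := ⟨hC', hlt, by linarith⟩
    have hf := f1_mem hy0 hxy hx1 hmem.2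
    have hf' : f1 x0 y0 (sSup S) ∈ S := ⟨h1 _ hmem, hlt.trans hf.1, hf.2⟩
    exact absurd (le_csSup hbdd hf') (not_le.2 hf.1)
  -- suppose there is a gap
  by_contra hcon
  rw [Set.not_subset] at hcon
  obtain ⟨g, hg, hgC⟩ := hcon
  set V : Set ℝ := Cᶜ with hV
  have hVo : IsOpen V := hC.isOpen_compl
  -- pullbacks
  have hp0 : ∀ z ∈ Set.Ioo (0:ℝ) 1, f0 x0 y0 z ∈ V → z ∈ V := fun z hz hzV hzC =>
    hzV (h0 z ⟨hzC, hz⟩)
  have hp1 : ∀ z ∈ Set.Ioo (0:ℝ) 1, f1 x0 y0 z ∈ V → z ∈ V := fun z hz hzV hzC =>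
    hzV (h1 z ⟨hzC, hz⟩)
  -- the longest gap
  let P : Set (ℝ × ℝ) := (Set.Icc 0 1 ×ˢ Set.Icc 0 1) ∩ {q | Set.Ioo q.1 q.2 ⊆ V}
  have hPc : IsCompact P := by
    refine (isCompact_Icc.prod isCompact_Icc).inter_right ?_
    have : {q : ℝ × ℝ | Set.Ioo q.1 q.2 ⊆ V} = ⋂ x ∈ C, ({q : ℝ × ℝ | x ≤ q.1} ∪ {q | q.2 ≤ x}) := by
      ext q
      simp only [Set.mem_iInter, Set.mem_union]
      constructor
      · intro h x hx
        by_contra hc
        push Not at hc
        exact h ⟨not_le.1 hc.1, not_le.1 hc.2⟩ hx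
      · intro h x hx hxC
        rcases h x hxC with h | h
        · exact absurd hx.1 (not_lt.2 h)
        · exact absurd hx.2 (not_lt.2 h)
    rw [this]
    refine isClosed_biInter fun x _ => ?_
    exact (isClosed_le continuous_const continuous_fst).union
      (isClosed_le continuous_snd continuous_const)
  have hPne : P.Nonempty := ⟨(0, 0), ⟨⟨⟨le_rfl, zero_le_one⟩, ⟨le_rfl, zero_le_one⟩⟩, by
    intro x hx; exact absurd hx.1 (not_lt.2 hx.2.le)⟩⟩
  obtain ⟨⟨s, t⟩, hst, hmax⟩ := hPc.exists_isMaxOn hPne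
    (f := fun q : ℝ × ℝ => q.2 - q.1) (by fun_prop)
  have hmax' : ∀ a b : ℝ, 0 ≤ a → a ≤ 1 → 0 ≤ b → b ≤ 1 → Set.Ioo a b ⊆ V → b - a ≤ t - s :=
    fun a b ha1 ha2 hb1 hb2 hab => hmax (⟨⟨⟨ha1, ha2⟩, ⟨hb1, hb2⟩⟩, hab⟩ : (a, b) ∈ P)
  obtain ⟨⟨⟨hs0, hs1⟩, ⟨ht0, ht1⟩⟩, hstV⟩ := hst
  simp only at hs0 hs1 ht0 ht1 hstV
  -- positive length
  have hpos : s < t := by
    obtain ⟨δ, hδ, hball⟩ := Metric.isOpen_iff.1 hVo g hgC
    have h2 : Set.Ioo g (min (g + δ) 1) ⊆ V := by
      intro z hz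
      apply hball
      rw [Metric.mem_ball, Real.dist_eq, abs_lt]
      have := lt_min_iff.1 hz.2
      exact ⟨by linarith [hz.1], by linarith⟩
    have h3 := hmax' g (min (g + δ) 1) hg.1.le hg.2.le (le_min (by linarith [hg.1]) zero_le_one)
      (min_le_right _ _) h2
    have h4 : g < min (g + δ) 1 := lt_min (by linarith) hg.2
    linarith
  have hsp : 0 < s := by
    rcases hs0.lt_or_eq with h | h
    · exact h
    · obtain ⟨a, ha, hat⟩ := hzero t (by linarith)
      exact absurd ha.1 (hstV ⟨by rw [← h]; exact ha.2.1, hat⟩)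
  have htp : t < 1 := by
    rcases ht1.lt_or_eq with h | h
    · exact h
    · obtain ⟨a, ha, hat⟩ := hone s (by linarith)
      exact absurd ha.1 (hstV ⟨hat, by rw [h]; exact ha.2.2⟩)
  have htC : t ∉ V := by
    intro htV
    obtain ⟨δ, hδ, hball⟩ := Metric.isOpen_iff.1 hVo t htV
    have h2 : Set.Ioo s (min (t + δ) 1) ⊆ V := by
      intro z hz
      rcases lt_or_ge z t with h | h
      · exact hstV ⟨hz.1, h⟩
      · apply hball
        rw [Metric.mem_ball, Real.dist_eq, abs_lt]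
        have := lt_min_iff.1 hz.2
        exact ⟨by linarith, by linarith⟩
    have h3 := hmax' s (min (t + δ) 1) hs0 hs1 (le_min (by linarith) zero_le_one)
      (min_le_right _ _) h2
    have h4 : t < min (t + δ) 1 := lt_min (by linarith) htp
    linarith
  -- slopes
  set a := y0 / x0 with ha
  set b := (1 - y0) / (1 - x0) with hb
  have ha0 : 0 < a := by positivity
  have ha1 : a < 1 := (div_lt_one hx0).2 hxy
  have hb1 : 1 < b := (one_lt_div h1x).2 (by linarith)
  have hax : a * x0 = y0 := by rw [ha]; field_simp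
  have hbx : b * (1 - x0) = 1 - y0 := by rw [hb]; field_simp
  have f0a : ∀ z, z ≤ x0 → f0 x0 y0 z = a * z := fun z hz => by rw [f0, if_pos hz]
  have f0b : ∀ z, x0 ≤ z → f0 x0 y0 z = 1 - b * (1 - z) := by
    intro z hz
    rcases hz.lt_or_eq with h | h
    · rw [f0, if_neg (not_le.2 h)]; ring
    · rw [f0a z h.ge, ← h, hax]; linarith
  have f1a : ∀ z, 1 - x0 ≤ z → f1 x0 y0 z = 1 - a * (1 - z) := by
    intro z hz
    rw [f1, f0a _ (by linarith)]
  -- step 1
  have hty : y0 < t := by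
    by_contra hc
    push Not at hc
    have h2 : Set.Ioo (s / a) (t / a) ⊆ V := by
      intro z hz
      have hz1 : s < a * z := by have := (div_lt_iff₀ ha0).1 hz.1; linarith
      have hz2 : a * z < t := by have := (lt_div_iff₀ ha0).1 hz.2; linarith
      have hz3 : z ≤ x0 := by
        have : a * z < a * x0 := by linarith
        exact (lt_of_mul_lt_mul_left this ha0.le).le
      have hz4 : 0 < z := (div_pos hsp ha0).trans hz.1
      apply hp0 z ⟨hz4, by linarith⟩
      rw [f0a z hz3]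
      exact hstV ⟨hz1, hz2⟩
    have hta : t / a ≤ 1 := by
      rw [div_le_one ha0]
      have : y0 ≤ a := by rw [← hax]; nlinarith
      linarith
    have hsa : s / a ≤ 1 := le_trans (by gcongr) hta
    have h3 := hmax' (s / a) (t / a) (by positivity) hsa (by positivity) hta h2
    have h4 : t - s < (t - s) / a := (lt_div_iff₀ ha0).2 (by nlinarith)
    have h5 : (t - s) / a = t / a - s / a := sub_div _ _ _
    linarith
  have hsy : s < 1 - y0 := by
    by_contra hc
    push Not at hc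
    have h2 : Set.Ioo (1 - (1 - s) / a) (1 - (1 - t) / a) ⊆ V := by
      intro z hz
      have hz1 : a * (1 - z) < 1 - s := by
        have : 1 - z < (1 - s) / a := by linarith [hz.1]
        have := (lt_div_iff₀ ha0).1 this; linarith
      have hz2 : 1 - t < a * (1 - z) := by
        have : (1 - t) / a < 1 - z := by linarith [hz.2]
        have := (div_lt_iff₀ ha0).1 this; linarith
      have hz3 : 1 - z < x0 := by
        have : a * (1 - z) < a * x0 := by linarith
        exact lt_of_mul_lt_mul_left this ha0.le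
      have hz4 : 0 < 1 - z := by
        have : 0 < a * (1 - z) := by linarith
        exact (mul_pos_iff_of_pos_left ha0).1 this
      apply hp1 z ⟨by linarith, by linarith⟩
      rw [f1a z (by linarith)]
      exact hstV ⟨by linarith, by linarith⟩
    have hsa : (1 - s) / a ≤ x0 := by
      rw [div_le_iff₀ ha0]; linarith
    have hta : (1 - t) / a ≤ (1 - s) / a := by gcongr
    have hta0 : 0 < (1 - t) / a := div_pos (by linarith) ha0
    have hsa0 : 0 < (1 - s) / a := div_pos (by linarith) ha0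
    have h3 := hmax' (1 - (1 - s) / a) (1 - (1 - t) / a) (by linarith) (by linarith)
      (by linarith) (by linarith) h2
    have h4 : t - s < (t - s) / a := (lt_div_iff₀ ha0).2 (by nlinarith)
    have h5 : (t - s) / a = (1 - s) / a - (1 - t) / a := by rw [← sub_div]; ring
    linarith
  -- step 2: the preimage under `f₀`
  set T : ℝ := 1 - (1 - t) / b with hT
  set L : ℝ := s / a with hL
  have hb0 : 0 < b := by linarith
  have hTt : t < T := by
    have : (1 - t) / b < 1 - t := (div_lt_iff₀ hb0).2 (by nlinarith)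
    rw [hT]; linarith
  have hTx : x0 < T := by
    have : (1 - t) / b < 1 - x0 := (div_lt_iff₀ hb0).2 (by linarith)
    rw [hT]; linarith
  have hLx : L < x0 := by
    rw [hL, div_lt_iff₀ ha0]; linarith
  have hT1 : T < 1 := by
    have : 0 < (1 - t) / b := div_pos (by linarith) hb0
    rw [hT]; linarith
  have hL0 : 0 < L := div_pos hsp ha0
  have hJ0 : Set.Ioo L T ⊆ V := by
    intro z hz
    have hz0 : 0 < z := hL0.trans hz.1
    apply hp0 z ⟨hz0, hz.2.trans hT1⟩
    rcases le_total z x0 with h | h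
    · rw [f0a z h]
      have hz1 : s < a * z := by have := (div_lt_iff₀ ha0).1 hz.1; linarith
      have hz2 : a * z ≤ y0 := by rw [← hax]; gcongr
      exact hstV ⟨hz1, by linarith⟩
    · rw [f0b z h]
      have hz1 : b * (1 - z) ≤ 1 - y0 := by rw [← hbx]; gcongr
      have hz2 : 1 - t < b * (1 - z) := by
        have : (1 - t) / b < 1 - z := by have := hz.2; rw [hT] at this; linarith
        have := (div_lt_iff₀ hb0).1 this; linarith
      exact hstV ⟨by linarith, by linarith⟩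
  -- step 3: iterate the inverse of `f₁`
  obtain ⟨n, hn, hnmin⟩ : ∃ n : ℕ, a ^ n ≤ 1 / b ∧ ∀ m < n, ¬ a ^ m ≤ 1 / b := by
    have hex : ∃ n : ℕ, a ^ n ≤ 1 / b := by
      obtain ⟨n, hn⟩ := exists_pow_lt_of_lt_one (by positivity : (0:ℝ) < 1 / b) ha1
      exact ⟨n, hn.le⟩
    classical
    exact ⟨Nat.find hex, Nat.find_spec hex, fun m hm => Nat.find_min hex hm⟩
  have hJ : ∀ k : ℕ, k ≤ n → Set.Ioo (1 - (1 - L) / a ^ k) (1 - (1 - T) / a ^ k) ⊆ V ∧
      0 ≤ 1 - (1 - L) / a ^ k := by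
    intro k
    induction k with
    | zero => intro _; simpa using ⟨hJ0, hL0.le⟩
    | succ k ih =>
      intro hk
      obtain ⟨ih1, ih2⟩ := ih (by omega)
      have hak : 0 < a ^ k := by positivity
      have hkb : 1 / b < a ^ k := not_le.1 (hnmin k (by omega))
      -- the right end of the `k`-th interval is right of `t`
      have hr : t < 1 - (1 - T) / a ^ k := by
        have h2 : (1 - T) / a ^ k < 1 - t := by
          rw [div_lt_iff₀ hak]
          have h3 : 1 - T = (1 - t) * (1 / b) := by rw [hT]; ring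
          rw [h3]
          exact mul_lt_mul_of_pos_left hkb (by linarith)
        linarith
      -- the left end is right of `t`
      have hl : t ≤ 1 - (1 - L) / a ^ k := by
        by_contra hc
        push Not at hc
        exact htC (ih1 ⟨hc, hr⟩)
      have ht' : (1 - t) / a ≤ x0 := by
        rw [div_le_iff₀ ha0]; linarith
      have hle : (1 - L) / a ^ (k + 1) ≤ x0 := by
        rw [pow_succ, ← div_div]
        refine le_trans ?_ ht'
        gcongr
        linarith
      refine ⟨?_, by linarith⟩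
      intro z hz
      have hz1 : 1 - z < (1 - L) / a ^ (k + 1) := by linarith [hz.1]
      have hz2 : (1 - T) / a ^ (k + 1) < 1 - z := by linarith [hz.2]
      rw [pow_succ, ← div_div] at hz1 hz2
      have hz3 := (lt_div_iff₀ ha0).1 hz1
      have hz4 := (div_lt_iff₀ ha0).1 hz2
      have hz5 : 0 < (1 - T) / a ^ k := div_pos (by linarith) hak
      have hz6 : 0 < 1 - z := by
        have : 0 < (1 - z) * a := by linarith
        exact (mul_pos_iff_of_pos_right ha0).1 this
      have hz7 : 1 - z < x0 := by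
        rw [pow_succ, ← div_div] at hle
        linarith
      apply hp1 z ⟨by linarith, by linarith⟩
      rw [f1a z (by linarith)]
      exact ih1 ⟨by linarith, by linarith⟩
  -- the contradiction
  obtain ⟨hJn, hJn0⟩ := hJ n le_rfl
  have han : 0 < a ^ n := by positivity
  have han1 : a ^ n ≤ 1 := pow_le_one₀ ha0.le ha1.le
  have hq1 : 0 ≤ (1 - T) / a ^ n := div_nonneg (by linarith) han.le
  have hq2 : (1 - T) / a ^ n ≤ (1 - L) / a ^ n := by gcongr; linarith
  have hq3 : 0 ≤ (1 - L) / a ^ n := hq1.trans hq2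
  have h3 := hmax' (1 - (1 - L) / a ^ n) (1 - (1 - T) / a ^ n) hJn0 (by linarith)
    (by linarith) (by linarith) hJn
  have h4 : (T - L) / a ^ n ≤ t - s := by
    have : (T - L) / a ^ n = (1 - L) / a ^ n - (1 - T) / a ^ n := by rw [← sub_div]; ring
    linarith
  rw [div_le_iff₀ han] at h4
  -- the length of the preimage
  have h5 : T - L = (t - y0) / b + (y0 - s) / a := by
    have e1 : (1 - y0) / b = 1 - x0 := by rw [← hbx]; field_simp
    have e2 : y0 / a = x0 := by rw [← hax]; field_simp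
    rw [hT, hL]
    have e3 : (1 - t) / b = (1 - y0) / b - (t - y0) / b := by rw [← sub_div]; ring
    have e4 : s / a = y0 / a - (y0 - s) / a := by rw [← sub_div]; ring
    rw [e3, e4, e1, e2]; ring
  have h6 : (t - s) * a ^ n ≤ (t - y0) / b + (y0 - s) * 1 := by
    have e1 : (t - y0) * a ^ n ≤ (t - y0) / b := by
      calc (t - y0) * a ^ n ≤ (t - y0) * (1 / b) :=
            mul_le_mul_of_nonneg_left hn (by linarith)
        _ = _ := by ring
    have e2 : (y0 - s) * a ^ n ≤ (y0 - s) * 1 := mul_le_mul_of_nonneg_left han1 (by linarith)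
    nlinarith
  have h7 : (y0 - s) * 1 < (y0 - s) / a := by
    rw [lt_div_iff₀ ha0]
    nlinarith [mul_pos (show 0 < y0 - s by linarith) (show 0 < 1 - a by linarith)]
  linarith

end

/-- Every Alsedà–Misiurewicz system with `1/2 < x₀ < 1` and `1/2 ≤ y₀ < x₀` is minimal: the orbit of
every point of `(0,1)` is dense in `(0,1)`. -/
theorem result : ∀ x0 y0 : ℝ, 1 / 2 < x0 → x0 < 1 → 1 / 2 ≤ y0 → y0 < x0 →
    ∀ x ∈ Set.Ioo (0:ℝ) 1, Set.Ioo (0:ℝ) 1 ⊆ closure (orb x0 y0 x) := by
  intro x0 y0 _ hx1 hy hxy x hx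
  have hx0 : 0 < x0 := by linarith
  have hf0 : ∀ z ∈ orb x0 y0 x, f0 x0 y0 z ∈ orb x0 y0 x := by
    rintro _ ⟨w, rfl⟩
    exact ⟨0 :: w, by simp⟩
  have hf1 : ∀ z ∈ orb x0 y0 x, f1 x0 y0 z ∈ orb x0 y0 x := by
    rintro _ ⟨w, rfl⟩
    exact ⟨1 :: w, by simp⟩
  have hi0 : f0 x0 y0 '' orb x0 y0 x ⊆ orb x0 y0 x := by
    rintro _ ⟨z, hz, rfl⟩; exact hf0 z hz
  have hi1 : f1 x0 y0 '' orb x0 y0 x ⊆ orb x0 y0 x := by
    rintro _ ⟨z, hz, rfl⟩; exact hf1 z hz
  refine core hx1 hy hxy _ isClosed_closure ⟨x, subset_closure ⟨[], rfl⟩, hx⟩ ?_ ?_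
  · rintro z ⟨hz, -⟩
    exact closure_mono hi0
      (image_closure_subset_closure_image (f0_cont hx0 hx1) ⟨z, hz, rfl⟩)
  · rintro z ⟨hz, -⟩
    exact closure_mono hi1
      (image_closure_subset_closure_image (f1_cont hx0 hx1) ⟨z, hz, rfl⟩)

end Pool.Agent.Results.MP_f06e6c_an.AllMinimal
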